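import Mathlib

/-!
# A spectrally arbitrary direct sum of two patterns that are not spectrally arbitrary

The zero-nonzero pattern `P5` of order five realizes every monic quintic except
`x (x^4 + b x^2 + c)` with `b^2 < 4 c`, and the pattern `P4` of order four realizes every monic
quartic except `x^2 (x^2 + b x + c)` with `b^2 < 4 c`.  Every monic polynomial of degree nine has a
factorisation into a quintic and a quartic avoiding both exceptional sets, so `P5 ⊕ P4` is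
spectrally arbitrary.
-/

open Polynomial Matrix

namespace Pool.Agent.Results.MP_1020fe_co.DirectSumArbitrary

/-- `A` is a realization of the zero-nonzero pattern `P`: the entry `A i j` is nonzero exactly when
`P i j = true`. -/
def Realizes {ι : Type} (A : Matrix ι ι ℝ) (P : ι → ι → Bool) : Prop :=
  ∀ i j, A i j ≠ 0 ↔ P i j = true

/-- The zero-nonzero pattern `P` is spectrally arbitrary: every monic real polynomial whose degree is
the order of `P` is the characteristic polynomial of a realization of `P`. -/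
def SpectrallyArbitrary {ι : Type} [Fintype ι] [DecidableEq ι] (P : ι → ι → Bool) : Prop :=
  ∀ p : ℝ[X], p.Monic → p.natDegree = Fintype.card ι →
    ∃ A : Matrix ι ι ℝ, Realizes A P ∧ A.charpoly = p

/-- The direct sum of two zero-nonzero patterns (block diagonal). -/
def directSum {ι κ : Type} (P : ι → ι → Bool) (R : κ → κ → Bool) : ι ⊕ κ → ι ⊕ κ → Bool
  | .inl i, .inl j => P i j
  | .inr i, .inr j => R i j
  | .inl _, .inr _ => false
  | .inr _, .inl _ => false

/-- The pattern of order five, with eleven nonzero entries. -/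
def P5 : Fin 5 → Fin 5 → Bool :=
  ![![false, true, true, false, true],
    ![false, true, true, true, false],
    ![false, true, false, false, true],
    ![false, true, false, true, false],
    ![true, false, false, false, false]]

/-- The pattern of order four (the zero-nonzero pattern of `M₄`), with nine nonzero entries. -/
def P4 : Fin 4 → Fin 4 → Bool :=
  ![![true, true, true, false],
    ![true, true, true, false],
    ![false, false, false, true],
    ![true, true, false, false]]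

/-- quintics missed by the pattern `P5` -/
def Bad5 (p : ℝ[X]) : Prop :=
  ∃ b c : ℝ, b ^ 2 < 4 * c ∧ p = X * (X ^ 4 + C b * X ^ 2 + C c)

/-- quartics missed by the pattern `P4` -/
def Bad4 (p : ℝ[X]) : Prop :=
  ∃ b c : ℝ, b ^ 2 < 4 * c ∧ p = X ^ 2 * (X ^ 2 + C b * X + C c)

set_option maxRecDepth 8000 in
lemma det5 (x a12 a13 a15 a22 a23 a24 a32 a35 a42 a44 a51 : ℝ) :
    (!![x, -a12, -a13, 0, -a15; 0, x - a22, -a23, -a24, 0; 0, -a32, x, 0, -a35;
      0, -a42, 0, x - a44, 0; -a51, 0, 0, 0, x] : Matrix (Fin 5) (Fin 5) ℝ).det =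
    x ^ 5 - (a22 + a44) * x ^ 4 + (a22 * a44 - a23 * a32 - a24 * a42 - a15 * a51) * x ^ 3
      - (a13 * a35 * a51 - a23 * a32 * a44 - a15 * a51 * (a22 + a44)) * x ^ 2
      + (-(a12 * a23 * a35 * a51) + a13 * a35 * a51 * (a22 + a44) + a23 * a32 * (a15 * a51)
          + a24 * a42 * (a15 * a51) - a15 * a51 * a22 * a44) * x
      - (-(a12 * a23 * a35 * a51) * a44 + a13 * a35 * a51 * a22 * a44
          - a13 * a35 * a51 * (a24 * a42) + a23 * a32 * (a15 * a51) * a44) := by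
  simp (maxSteps := 1000000) [Matrix.det_succ_row_zero, Fin.sum_univ_succ, Fin.succAbove]
  ring

lemma charpoly5 (a12 a13 a15 a22 a23 a24 a32 a35 a42 a44 a51 : ℝ) :
    (!![0, a12, a13, 0, a15; 0, a22, a23, a24, 0; 0, a32, 0, 0, a35; 0, a42, 0, a44, 0;
      a51, 0, 0, 0, 0] : Matrix (Fin 5) (Fin 5) ℝ).charpoly =
    X ^ 5 - C (a22 + a44) * X ^ 4 + C (a22 * a44 - a23 * a32 - a24 * a42 - a15 * a51) * X ^ 3
      - C (a13 * a35 * a51 - a23 * a32 * a44 - a15 * a51 * (a22 + a44)) * X ^ 2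
      + C (-(a12 * a23 * a35 * a51) + a13 * a35 * a51 * (a22 + a44) + a23 * a32 * (a15 * a51)
          + a24 * a42 * (a15 * a51) - a15 * a51 * a22 * a44) * X
      - C (-(a12 * a23 * a35 * a51) * a44 + a13 * a35 * a51 * a22 * a44
          - a13 * a35 * a51 * (a24 * a42) + a23 * a32 * (a15 * a51) * a44) := by
  apply Polynomial.funext
  intro x
  rw [Matrix.eval_charpoly]
  have h : (Matrix.scalar (Fin 5)) x - !![0, a12, a13, 0, a15; 0, a22, a23, a24, 0;
      0, a32, 0, 0, a35; 0, a42, 0, a44, 0; a51, 0, 0, 0, 0] =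
      !![x, -a12, -a13, 0, -a15; 0, x - a22, -a23, -a24, 0; 0, -a32, x, 0, -a35;
      0, -a42, 0, x - a44, 0; -a51, 0, 0, 0, x] := by
    ext i j
    fin_cases i <;> fin_cases j <;> simp
  rw [h, det5]
  simp only [eval_add, eval_sub, eval_mul, eval_pow, eval_X, eval_C]

lemma avoid (s : Set ℝ) (hs : IsOpen s) (hne : s.Nonempty) (q : ℝ[X]) (hq : q ≠ 0) :
    ∃ x ∈ s, q.eval x ≠ 0 := by
  obtain ⟨x0, hx0⟩ := hne
  have hinf : s.Infinite := infinite_of_mem_nhds x0 (hs.mem_nhds hx0)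
  by_contra hcon
  push Not at hcon
  exact hq (Polynomial.eq_zero_of_infinite_isRoot q (hinf.mono (fun x hx => hcon x hx)))

lemma sol5a (e1 e2 e3 e4 e5 : ℝ) (h1 : e1 ≠ 0) :
    ∃ α β u v w t y : ℝ, α ≠ 0 ∧ β ≠ 0 ∧ u ≠ 0 ∧ v ≠ 0 ∧ w ≠ 0 ∧ t ≠ 0 ∧ y ≠ 0 ∧
      α + β = e1 ∧ α * β - u - v - w = e2 ∧ t - u * β - w * (α + β) = e3 ∧
      -y + t * (α + β) + u * w + v * w - w * α * β = e4 ∧
      -y * β + t * α * β - t * v + u * w * β = e5 := by
  obtain ⟨β, -, hβ⟩ := avoid Set.univ isOpen_univ Set.univ_nonempty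
    (X * (X - C e1) * (X ^ 5 - C e1 * X ^ 4 + C e2 * X ^ 3 - C e3 * X ^ 2 + C e4 * X - C e5))
    (by
      refine mul_ne_zero (mul_ne_zero X_ne_zero (X_sub_C_ne_zero e1)) ?_
      intro h
      have := congrArg (fun p => coeff p 5) h
      simp [coeff_X_pow] at this)
  simp only [eval_mul, eval_sub, eval_add, eval_pow, eval_X, eval_C] at hβ
  have hβ0 : β ≠ 0 := by rintro rfl; simp at hβ
  have hα0 : e1 - β ≠ 0 := by
    intro h; apply hβ; rw [show β - e1 = -(e1 - β) by ring, h]; simp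
  set P : ℝ := β ^ 5 - e1 * β ^ 4 + e2 * β ^ 3 - e3 * β ^ 2 + e4 * β - e5 with hP
  have hP0 : P ≠ 0 := by intro h; apply hβ; rw [h]; simp
  set g : ℝ := 2 * β ^ 3 - e1 * β ^ 2 + e2 * β - e3 with hg
  set s0 : ℝ := (e1 - β) * β - e2 with hs0
  let W : ℝ[X] := C β * X ^ 2 + C g * X + C P
  let U : ℝ[X] := C e1 * X * (C s0 - X) - W
  let T : ℝ[X] := C (e1 * e3) * X + C β * U + C e1 * W
  let Y : ℝ[X] := C e1 * (C e1 * X) * T - W * (C (e1 * e2) * X + W) - C e4 * (C e1 * X) ^ 2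
  have hW : W ≠ 0 := by
    intro h; have := congrArg (eval 0) h; simp [W] at this; exact hP0 this
  have hU : U ≠ 0 := by
    intro h; have := congrArg (eval 0) h; simp [U, W] at this; exact hP0 this
  have hT : T ≠ 0 := by
    intro h; have := congrArg (eval 0) h; simp [T, U, W] at this
    have h2 : P * (e1 - β) = 0 := by linear_combination this
    rcases mul_eq_zero.1 h2 with h | h
    · exact hP0 h
    · exact hα0 h
  have hY : Y ≠ 0 := by
    intro h; have := congrArg (eval 0) h; simp [Y, T, U, W] at this; exact hP0 this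
  obtain ⟨v, -, hv⟩ := avoid Set.univ isOpen_univ Set.univ_nonempty (X * W * U * T * Y)
    (mul_ne_zero (mul_ne_zero (mul_ne_zero (mul_ne_zero X_ne_zero hW) hU) hT) hY)
  simp only [eval_mul, eval_X] at hv
  have hv0 : v ≠ 0 := by rintro rfl; simp at hv
  have hWv : W.eval v ≠ 0 := by intro h; apply hv; rw [h]; simp
  have hUv : U.eval v ≠ 0 := by intro h; apply hv; rw [h]; simp
  have hTv : T.eval v ≠ 0 := by intro h; apply hv; rw [h]; simp
  have hYv : Y.eval v ≠ 0 := by intro h; apply hv; rw [h]; simp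
  have eW : W.eval v = β * v ^ 2 + g * v + P := by simp [W]
  have eU : U.eval v = e1 * v * (s0 - v) - W.eval v := by simp [U]
  have eT : T.eval v = e1 * e3 * v + β * U.eval v + e1 * W.eval v := by simp [T]
  have eY : Y.eval v = e1 * (e1 * v) * T.eval v - W.eval v * (e1 * e2 * v + W.eval v)
      - e4 * (e1 * v) ^ 2 := by simp [Y]
  obtain ⟨w, hw⟩ : ∃ w : ℝ, e1 * v * w = W.eval v :=
    ⟨W.eval v / (e1 * v), by field_simp⟩
  have hev : e1 * v ≠ 0 := mul_ne_zero h1 hv0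
  set u : ℝ := s0 - w - v with hu
  set t : ℝ := e3 + u * β + w * e1 with ht
  set y : ℝ := t * e1 - w * (e2 + w) - e4 with hy
  have hu' : e1 * v * u = U.eval v := by rw [eU, ← hw, hu]; ring
  have ht' : e1 * v * t = T.eval v := by rw [eT, ← hw, ← hu', ht]; ring
  have hy' : (e1 * v) ^ 2 * y = Y.eval v := by rw [eY, ← hw, ← ht', hy]; ring
  refine ⟨e1 - β, β, u, v, w, t, y, hα0, hβ0, ?_, hv0, ?_, ?_, ?_, by ring, ?_, ?_, ?_, ?_⟩
  · intro h; apply hUv; rw [← hu', h]; simp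
  · intro h; apply hWv; rw [← hw, h]; simp
  · intro h; apply hTv; rw [← ht', h]; simp
  · intro h; apply hYv; rw [← hy', h]; simp
  · rw [hu, hs0]; ring
  · rw [ht]; ring
  · rw [hy, hu, hs0]; ring
  · rw [eW] at hw
    rw [hy, ht, hu, hs0]
    rw [hP, hg] at hw
    linear_combination (-1 : ℝ) * hw

lemma disc_open (e2 e3 e4 e5 : ℝ) (h : ¬ (e3 = 0 ∧ e5 = 0 ∧ e2 ^ 2 < 4 * e4)) :
    ∃ s : Set ℝ, IsOpen s ∧ s.Nonempty ∧
      ∀ β ∈ s, 0 ≤ (e2 ^ 2 - 4 * e4) * β ^ 2 + (4 * e5 - 2 * e2 * e3) * β + e3 ^ 2 := by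
  by_cases h3 : e3 = 0
  · by_cases h5 : e5 = 0
    · refine ⟨Set.univ, isOpen_univ, Set.univ_nonempty, fun β _ => ?_⟩
      have hk : 0 ≤ e2 ^ 2 - 4 * e4 := by
        by_contra hk
        exact h ⟨h3, h5, by linarith [not_le.1 hk]⟩
      subst h3; subst h5
      have := mul_nonneg hk (sq_nonneg β)
      linarith
    · refine ⟨{β | 0 < (e2 ^ 2 - 4 * e4) * β ^ 2 + (4 * e5 - 2 * e2 * e3) * β + e3 ^ 2},
        isOpen_lt continuous_const (by fun_prop), ?_, fun β hβ => le_of_lt hβ⟩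
      set k : ℝ := e2 ^ 2 - 4 * e4 with hk
      have hp : 0 < 1 + |k| := by positivity
      refine ⟨e5 / (1 + |k|), ?_⟩
      show 0 < k * (e5 / (1 + |k|)) ^ 2 + (4 * e5 - 2 * e2 * e3) * (e5 / (1 + |k|)) + e3 ^ 2
      subst h3
      have h4 : 0 < k / (1 + |k|) + 4 := by
        have : -1 ≤ k / (1 + |k|) := by
          rw [le_div_iff₀ hp]
          have := neg_abs_le k
          linarith
        linarith
      have h6 : 0 < e5 ^ 2 / (1 + |k|) := by positivity
      have := mul_pos h6 h4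
      calc 0 < e5 ^ 2 / (1 + |k|) * (k / (1 + |k|) + 4) := this
        _ = _ := by field_simp; ring
  · refine ⟨{β | 0 < (e2 ^ 2 - 4 * e4) * β ^ 2 + (4 * e5 - 2 * e2 * e3) * β + e3 ^ 2},
        isOpen_lt continuous_const (by fun_prop), ⟨0, ?_⟩, fun β hβ => le_of_lt hβ⟩
    show 0 < (e2 ^ 2 - 4 * e4) * 0 ^ 2 + (4 * e5 - 2 * e2 * e3) * 0 + e3 ^ 2
    have : 0 < e3 ^ 2 := by positivity
    linarith

lemma sol5b (e2 e3 e4 e5 : ℝ) (h : ¬ (e3 = 0 ∧ e5 = 0 ∧ e2 ^ 2 < 4 * e4)) :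
    ∃ α β u v w t y : ℝ, α ≠ 0 ∧ β ≠ 0 ∧ u ≠ 0 ∧ v ≠ 0 ∧ w ≠ 0 ∧ t ≠ 0 ∧ y ≠ 0 ∧
      α + β = 0 ∧ α * β - u - v - w = e2 ∧ t - u * β - w * (α + β) = e3 ∧
      -y + t * (α + β) + u * w + v * w - w * α * β = e4 ∧
      -y * β + t * α * β - t * v + u * w * β = e5 := by
  obtain ⟨s, hs, hsn, hs2⟩ := disc_open e2 e3 e4 e5 h
  obtain ⟨β, hβs, hβ⟩ := avoid s hs hsn
    (X * (X ^ 5 + C e2 * X ^ 3 - C e3 * X ^ 2 + C e4 * X - C e5))
    (by
      refine mul_ne_zero X_ne_zero ?_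
      intro h
      have := congrArg (fun p => coeff p 5) h
      simp [coeff_X_pow] at this)
  simp only [eval_mul, eval_sub, eval_add, eval_pow, eval_X, eval_C] at hβ
  have hβ0 : β ≠ 0 := by rintro rfl; simp at hβ
  have hD := hs2 β hβs
  set P : ℝ := β ^ 5 + e2 * β ^ 3 - e3 * β ^ 2 + e4 * β - e5 with hP
  have hP0 : P ≠ 0 := by intro h; apply hβ; rw [h]; simp
  set D : ℝ := (e2 ^ 2 - 4 * e4) * β ^ 2 + (4 * e5 - 2 * e2 * e3) * β + e3 ^ 2 with hDdef
  set G : ℝ := 2 * β ^ 3 + e2 * β - e3 with hG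
  obtain ⟨v, hv⟩ : ∃ v : ℝ, 2 * β * v = Real.sqrt D - G :=
    ⟨(Real.sqrt D - G) / (2 * β), by field_simp⟩
  have hrel : β * v ^ 2 + G * v + P = 0 := by
    have h1 : (2 * β * v + G) ^ 2 = D := by
      rw [hv]; rw [sub_add_cancel]; exact Real.sq_sqrt hD
    have h2 : 4 * β * (β * v ^ 2 + G * v + P) = 0 := by
      have h3 : D = G ^ 2 - 4 * β * P := by rw [hDdef, hG, hP]; ring
      linear_combination h1 + h3
    rcases mul_eq_zero.1 h2 with h | h
    · exact absurd h (by simp [hβ0])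
    · exact h
  have hv0 : v ≠ 0 := by
    rintro rfl; apply hP0; linarith
  obtain ⟨w, -, hw⟩ := avoid Set.univ isOpen_univ Set.univ_nonempty
    (X * (C (-β ^ 2 - e2 - v) - X) * (C (e3 + β * (-β ^ 2 - e2 - v)) - C β * X) *
      (X ^ 2 + C e2 * X + C e4))
    (by
      refine mul_ne_zero (mul_ne_zero (mul_ne_zero X_ne_zero ?_) ?_) ?_
      · intro h
        have := congrArg (eval ((-β ^ 2 - e2 - v) + 1)) h
        simp only [eval_sub, eval_C, eval_X, eval_zero] at this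
        linarith
      · intro h
        have h0 := congrArg (eval 0) h
        have h1 := congrArg (eval 1) h
        simp only [eval_sub, eval_C, eval_X, eval_zero, eval_mul] at h0 h1
        apply hβ0
        linarith
      · intro h
        have := congrArg (fun p => coeff p 2) h
        simp [coeff_X, coeff_C] at this)
  simp only [eval_mul, eval_sub, eval_add, eval_pow, eval_X, eval_C] at hw
  refine ⟨-β, β, -β ^ 2 - e2 - v - w, v, w, e3 + (-β ^ 2 - e2 - v - w) * β,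
    -(w * (e2 + w)) - e4, by simpa using hβ0, hβ0, ?_, hv0, ?_, ?_, ?_, by ring, by ring,
    by ring, by ring, ?_⟩
  · intro h; apply hw; rw [h]; simp
  · rintro rfl; simp at hw
  · intro h; apply hw
    rw [show e3 + β * (-β ^ 2 - e2 - v) - β * w = e3 + (-β ^ 2 - e2 - v - w) * β by ring, h]
    simp
  · intro h; apply hw
    rw [show w ^ 2 + e2 * w + e4 = -(-(w * (e2 + w)) - e4) by ring, h]
    simp
  · rw [hG, hP] at hrel
    linear_combination hrel

lemma sol5 (e1 e2 e3 e4 e5 : ℝ) (h : ¬ (e1 = 0 ∧ e3 = 0 ∧ e5 = 0 ∧ e2 ^ 2 < 4 * e4)) :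
    ∃ α β u v w t y : ℝ, α ≠ 0 ∧ β ≠ 0 ∧ u ≠ 0 ∧ v ≠ 0 ∧ w ≠ 0 ∧ t ≠ 0 ∧ y ≠ 0 ∧
      α + β = e1 ∧ α * β - u - v - w = e2 ∧ t - u * β - w * (α + β) = e3 ∧
      -y + t * (α + β) + u * w + v * w - w * α * β = e4 ∧
      -y * β + t * α * β - t * v + u * w * β = e5 := by
  by_cases h1 : e1 = 0
  · subst h1
    exact sol5b e2 e3 e4 e5 (fun hh => h ⟨rfl, hh⟩)
  · exact sol5a e1 e2 e3 e4 e5 h1

/-- solving for `f, e` once `α, u, d` are chosen -/
lemma sol4core (e1 e2 e3 e4 α d : ℝ) (hα : α ≠ 0) (hβ : e1 - α ≠ 0)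
    (hu : α * (e1 - α) - e2 ≠ 0) (hd : d ≠ 0) (hd3 : e3 - d ≠ 0)
    (hD : 0 ≤ (d * (e1 - α) + (e3 - d) * α - e4) ^ 2 -
      4 * d * ((α * (e1 - α) - e2) * (e3 - d))) :
    ∃ α β u f d e : ℝ, α ≠ 0 ∧ β ≠ 0 ∧ u ≠ 0 ∧ f ≠ 0 ∧ d ≠ 0 ∧ e ≠ 0 ∧
      α + β = e1 ∧ α * β - u = e2 ∧ d + f * e = e3 ∧
      d * β + f * e * α - f * d - u * e = e4 := by
  set K : ℝ := d * (e1 - α) + (e3 - d) * α - e4 with hK
  set u : ℝ := α * (e1 - α) - e2 with hudef
  obtain ⟨f, hf⟩ : ∃ f : ℝ, 2 * d * f = K + Real.sqrt (K ^ 2 - 4 * d * (u * (e3 - d))) :=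
    ⟨(K + Real.sqrt (K ^ 2 - 4 * d * (u * (e3 - d)))) / (2 * d), by field_simp⟩
  have hrel : d * f ^ 2 - K * f + u * (e3 - d) = 0 := by
    have h1 : (2 * d * f - K) ^ 2 = K ^ 2 - 4 * d * (u * (e3 - d)) := by
      rw [hf, add_sub_cancel_left]; exact Real.sq_sqrt hD
    have h2 : 4 * d * (d * f ^ 2 - K * f + u * (e3 - d)) = 0 := by linear_combination h1
    rcases mul_eq_zero.1 h2 with h | h
    · exact absurd h (by simp [hd])
    · exact h
  have hf0 : f ≠ 0 := by
    rintro rfl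
    have : u * (e3 - d) = 0 := by linarith
    rcases mul_eq_zero.1 this with h | h
    · exact hu h
    · exact hd3 h
  refine ⟨α, e1 - α, u, f, d, (e3 - d) / f, hα, hβ, hu, hf0, hd, div_ne_zero hd3 hf0,
    by ring, by rw [hudef]; ring, by field_simp; ring, ?_⟩
  have h3 : f * ((e3 - d) / f) = e3 - d := by field_simp
  have h4 : f * (d * (e1 - α) + f * ((e3 - d) / f) * α - f * d - u * ((e3 - d) / f)) =
      f * e4 := by
    rw [h3]
    have h5 : f * (u * ((e3 - d) / f)) = u * (e3 - d) := by field_simp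
    rw [hK] at hrel
    linear_combination (-1 : ℝ) * hrel - h5
  exact mul_left_cancel₀ hf0 h4

lemma sol4 (e1 e2 e3 e4 : ℝ) (h : ¬ (e3 = 0 ∧ e4 = 0 ∧ e1 ^ 2 < 4 * e2)) :
    ∃ α β u f d e : ℝ, α ≠ 0 ∧ β ≠ 0 ∧ u ≠ 0 ∧ f ≠ 0 ∧ d ≠ 0 ∧ e ≠ 0 ∧
      α + β = e1 ∧ α * β - u = e2 ∧ d + f * e = e3 ∧
      d * β + f * e * α - f * d - u * e = e4 := by
  by_cases h34 : e3 = 0 ∧ e4 = 0
  · obtain ⟨h3, h4⟩ := h34
    have hδ : 0 ≤ e1 ^ 2 - 4 * e2 := by
      by_contra hk
      exact h ⟨h3, h4, by linarith [not_le.1 hk]⟩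
    obtain ⟨α, -, hα⟩ := avoid Set.univ isOpen_univ Set.univ_nonempty
      (X * (X - C e1) * (X ^ 2 - C e1 * X + C e2))
      (by
        refine mul_ne_zero (mul_ne_zero X_ne_zero (X_sub_C_ne_zero e1)) ?_
        intro h
        have := congrArg (fun p => coeff p 2) h
        simp [coeff_C, coeff_X] at this)
    simp only [eval_mul, eval_sub, eval_add, eval_pow, eval_X, eval_C] at hα
    have h0 : α ≠ 0 := by rintro rfl; simp at hα
    have h1 : e1 - α ≠ 0 := by
      intro h; apply hα; rw [show α - e1 = -(e1 - α) by ring, h]; simp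
    have h2 : α * (e1 - α) - e2 ≠ 0 := by
      intro h; apply hα
      rw [show α ^ 2 - e1 * α + e2 = -(α * (e1 - α) - e2) by ring, h]; simp
    refine sol4core e1 e2 e3 e4 α 1 h0 h1 h2 one_ne_zero (by rw [h3]; norm_num) ?_
    rw [h3, h4]
    calc (0 : ℝ) ≤ e1 ^ 2 - 4 * e2 := hδ
      _ = _ := by ring
  · obtain ⟨α, -, hα⟩ := avoid Set.univ isOpen_univ Set.univ_nonempty
      (X * (X - C e1) * (X ^ 2 - C e1 * X + C e2) * (C e3 * X - C e4))
      (by
        refine mul_ne_zero (mul_ne_zero (mul_ne_zero X_ne_zero (X_sub_C_ne_zero e1)) ?_) ?_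
        · intro h
          have := congrArg (fun p => coeff p 2) h
          simp [coeff_C, coeff_X] at this
        · intro h
          have h0 := congrArg (eval 0) h
          have h1 := congrArg (eval 1) h
          simp only [eval_sub, eval_C, eval_X, eval_zero, eval_mul] at h0 h1
          apply h34
          constructor <;> linarith)
    simp only [eval_mul, eval_sub, eval_add, eval_pow, eval_X, eval_C] at hα
    have h0 : α ≠ 0 := by rintro rfl; simp at hα
    have h1 : e1 - α ≠ 0 := by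
      intro h; apply hα; rw [show α - e1 = -(e1 - α) by ring, h]; simp
    have h2 : α * (e1 - α) - e2 ≠ 0 := by
      intro h; apply hα
      rw [show α ^ 2 - e1 * α + e2 = -(α * (e1 - α) - e2) by ring, h]; simp
    have h5 : e3 * α - e4 ≠ 0 := by
      intro h; apply hα; rw [h]; simp
    obtain ⟨d, hds, hd⟩ := avoid
      {d : ℝ | 0 < (d * (e1 - α) + (e3 - d) * α - e4) ^ 2 -
        4 * d * ((α * (e1 - α) - e2) * (e3 - d))}
      (isOpen_lt continuous_const (by fun_prop))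
      ⟨0, by
        show 0 < ((0 : ℝ) * (e1 - α) + (e3 - 0) * α - e4) ^ 2 -
          4 * 0 * ((α * (e1 - α) - e2) * (e3 - 0))
        have : 0 < (e3 * α - e4) ^ 2 := by positivity
        calc (0 : ℝ) < (e3 * α - e4) ^ 2 := this
          _ = _ := by ring⟩
      (X * (X - C e3)) (mul_ne_zero X_ne_zero (X_sub_C_ne_zero e3))
    simp only [eval_mul, eval_sub, eval_X, eval_C] at hd
    have hd0 : d ≠ 0 := by rintro rfl; simp at hd
    have hd3 : e3 - d ≠ 0 := by
      intro h; apply hd; rw [show d - e3 = -(e3 - d) by ring, h]; simp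
    exact sol4core e1 e2 e3 e4 α d h0 h1 h2 hd0 hd3 (le_of_lt hds)

lemma det4 (x a11 a12 a13 a21 a22 a23 a34 a41 a42 : ℝ) :
    (!![x - a11, -a12, -a13, 0; -a21, x - a22, -a23, 0; 0, 0, x, -a34; -a41, -a42, 0, x] :
      Matrix (Fin 4) (Fin 4) ℝ).det =
    x ^ 4 - (a11 + a22) * x ^ 3 + (a11 * a22 - a12 * a21) * x ^ 2
      - (a13 * a34 * a41 + a23 * a34 * a42) * x
      + (a13 * a34 * a41 * a22 + a23 * a34 * a42 * a11 - a12 * a23 * a34 * a41
        - a21 * a13 * a34 * a42) := by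
  simp (maxSteps := 1000000) [Matrix.det_succ_row_zero, Fin.sum_univ_succ, Fin.succAbove]
  ring

lemma charpoly4 (a11 a12 a13 a21 a22 a23 a34 a41 a42 : ℝ) :
    (!![a11, a12, a13, 0; a21, a22, a23, 0; 0, 0, 0, a34; a41, a42, 0, 0] :
      Matrix (Fin 4) (Fin 4) ℝ).charpoly =
    X ^ 4 - C (a11 + a22) * X ^ 3 + C (a11 * a22 - a12 * a21) * X ^ 2
      - C (a13 * a34 * a41 + a23 * a34 * a42) * X
      + C (a13 * a34 * a41 * a22 + a23 * a34 * a42 * a11 - a12 * a23 * a34 * a41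
        - a21 * a13 * a34 * a42) := by
  apply Polynomial.funext
  intro x
  rw [Matrix.eval_charpoly]
  have h : (Matrix.scalar (Fin 4)) x - !![a11, a12, a13, 0; a21, a22, a23, 0; 0, 0, 0, a34;
      a41, a42, 0, 0] =
      !![x - a11, -a12, -a13, 0; -a21, x - a22, -a23, 0; 0, 0, x, -a34; -a41, -a42, 0, x] := by
    ext i j
    fin_cases i <;> fin_cases j <;> simp
  rw [h, det4]
  simp only [eval_add, eval_sub, eval_mul, eval_pow, eval_X, eval_C]

/-- obstruction for the quartic pattern -/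
lemma obs4 (a11 a12 a13 a21 a22 a23 a34 a41 a42 b c : ℝ) (h13 : a13 ≠ 0) (h34 : a34 ≠ 0)
    (h41 : a41 ≠ 0)
    (e1 : a11 + a22 = b) (e2 : a11 * a22 - a12 * a21 = c)
    (e3 : a13 * a34 * a41 + a23 * a34 * a42 = 0)
    (e4 : a13 * a34 * a41 * a22 + a23 * a34 * a42 * a11 - a12 * a23 * a34 * a41
        - a21 * a13 * a34 * a42 = 0) : 4 * c ≤ b ^ 2 := by
  have f3 : a13 * a41 + a23 * a42 = 0 := by
    have : a34 * (a13 * a41 + a23 * a42) = 0 := by linear_combination e3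
    rcases mul_eq_zero.1 this with h | h
    · exact absurd h h34
    · exact h
  have f4 : a13 * a41 * a22 + a23 * a42 * a11 - a12 * a23 * a41 - a21 * a13 * a42 = 0 := by
    have : a34 * (a13 * a41 * a22 + a23 * a42 * a11 - a12 * a23 * a41 - a21 * a13 * a42) = 0 := by
      linear_combination e4
    rcases mul_eq_zero.1 this with h | h
    · exact absurd h h34
    · exact h
  have key : a41 * (a13 * (a22 - a11) * (a12 * a23) - (a12 * a23) ^ 2 +
      a12 * a21 * a13 ^ 2) = 0 := by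
    linear_combination (a12 * a23) * f4 + (a12 * a21 * a13 - a11 * a12 * a23) * f3
  have key2 : a13 * (a22 - a11) * (a12 * a23) - (a12 * a23) ^ 2 + a12 * a21 * a13 ^ 2 = 0 := by
    rcases mul_eq_zero.1 key with h | h
    · exact absurd h h41
    · exact h
  have key3 : (2 * (a12 * a23) - (a22 - a11) * a13) ^ 2 = a13 ^ 2 * (b ^ 2 - 4 * c) := by
    rw [← e1, ← e2]; linear_combination (-4 : ℝ) * key2
  have h1 : 0 ≤ a13 ^ 2 * (b ^ 2 - 4 * c) := by rw [← key3]; positivity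
  have h2 : 0 < a13 ^ 2 := by positivity
  by_contra hcon
  have h3 : b ^ 2 - 4 * c < 0 := by linarith [not_le.1 hcon]
  have := mul_neg_of_pos_of_neg h2 h3
  linarith

/-- obstruction for the quintic pattern -/
lemma obs5 (α β u v w t y b c : ℝ) (hβ : β ≠ 0)
    (e1 : α + β = 0) (e2 : α * β - u - v - w = b) (e3 : t - u * β - w * (α + β) = 0)
    (e4 : -y + t * (α + β) + u * w + v * w - w * α * β = c)
    (e5 : -y * β + t * α * β - t * v + u * w * β = 0) : 4 * c ≤ b ^ 2 := by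
  have hα : α = -β := by linarith
  subst hα
  have ht : t = u * β := by linear_combination e3
  subst ht
  have hw : w = -β ^ 2 - b - u - v := by linear_combination (-1 : ℝ) * e2
  subst hw
  have hy : y = -c + u * (-β ^ 2 - b - u - v) + v * (-β ^ 2 - b - u - v)
      + (-β ^ 2 - b - u - v) * β ^ 2 := by linear_combination (-1 : ℝ) * e4
  subst hy
  have key : β * ((β ^ 2 + v) ^ 2 + b * (β ^ 2 + v) + c) = 0 := by linear_combination e5
  rcases mul_eq_zero.1 key with h | h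
  · exact absurd h hβ
  · nlinarith [sq_nonneg (2 * (β ^ 2 + v) + b)]

lemma quad_factor (q : ℝ[X]) (hq : q.Monic) (hr : ∀ x, q.eval x ≠ 0) (hd : 0 < q.natDegree) :
    ∃ b c : ℝ, b ^ 2 < 4 * c ∧ ∃ r : ℝ[X], r.Monic ∧ (∀ x, r.eval x ≠ 0) ∧
      q = (X ^ 2 + C b * X + C c) * r ∧ r.natDegree + 2 = q.natDegree := by
  have hnu : ¬ IsUnit q := by
    intro hu
    have := natDegree_eq_zero_of_isUnit hu
    omega
  obtain ⟨g, hg, s, hs⟩ := WfDvdMonoid.exists_irreducible_factor hnu hq.ne_zero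
  have hgroot : ∀ x, g.eval x ≠ 0 := by
    intro x hx; apply hr x; rw [hs, eval_mul, hx, zero_mul]
  have hform := eq_quadratic_of_degree_le_two hg.degree_le_two
  set a := g.coeff 2 with ha
  set b := g.coeff 1 with hb
  set c := g.coeff 0 with hc
  have hev : ∀ x, g.eval x = a * x ^ 2 + b * x + c := by
    intro x
    rw [hform]; simp
  have ha0 : a ≠ 0 := by
    intro h0
    by_cases hb0 : b = 0
    · rw [h0, hb0] at hform
      simp only [C_0, zero_mul, zero_add] at hform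
      by_cases hc0 : c = 0
      · rw [hc0, C_0] at hform
        exact hg.ne_zero hform
      · exact hg.not_isUnit (by rw [hform]; exact isUnit_C.2 (isUnit_iff_ne_zero.2 hc0))
    · apply hgroot (-c / b)
      rw [hev, h0]; field_simp; ring
  have hquad : C a * (X ^ 2 + C (b / a) * X + C (c / a)) = g := by
    rw [hform, mul_add, mul_add, ← mul_assoc, ← C_mul, ← C_mul, mul_div_cancel₀ _ ha0,
      mul_div_cancel₀ _ ha0]
  have hdisc : (b / a) ^ 2 < 4 * (c / a) := by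
    by_contra hcon
    have hcon' : 0 ≤ (b / a) ^ 2 - 4 * (c / a) := by linarith [not_lt.1 hcon]
    set D := Real.sqrt ((b / a) ^ 2 - 4 * (c / a)) with hD
    have hD2 : D ^ 2 = (b / a) ^ 2 - 4 * (c / a) := Real.sq_sqrt hcon'
    apply hgroot ((-(b / a) + D) / 2)
    rw [← hquad]
    simp only [eval_mul, eval_C, eval_add, eval_pow, eval_X]
    have : ((-(b / a) + D) / 2) ^ 2 + b / a * ((-(b / a) + D) / 2) + c / a = 0 := by
      linear_combination (1 / 4 : ℝ) * hD2
    rw [this, mul_zero]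
  have hqe : q = (X ^ 2 + C (b / a) * X + C (c / a)) * (C a * s) := by
    rw [hs, ← hquad]; ring
  have hmq : (X ^ 2 + C (b / a) * X + C (c / a)).Monic := by
    have : (X ^ 2 + C (b / a) * X + C (c / a)) = X ^ (1 + 1) + (C (b / a) * X + C (c / a)) := by
      ring
    rw [this]
    exact monic_X_pow_add (lt_of_le_of_lt degree_linear_le (by norm_num))
  have hmr : (C a * s).Monic := hmq.of_mul_monic_left (by rw [← hqe]; exact hq)
  have hnd : (X ^ 2 + C (b / a) * X + C (c / a)).natDegree = 2 := by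
    have h := natDegree_quadratic (a := (1 : ℝ)) (b := b / a) (c := c / a) one_ne_zero
    rwa [C_1, one_mul] at h
  refine ⟨b / a, c / a, hdisc, C a * s, hmr, ?_, hqe, ?_⟩
  · intro x hx; apply hr x; rw [hqe, eval_mul, hx, mul_zero]
  · rw [hqe, hmq.natDegree_mul hmr, hnd]; omega

/-- the monic quadratic with data `z = (b, c)` -/
noncomputable def Q (z : ℝ × ℝ) : ℝ[X] := X ^ 2 + C z.1 * X + C z.2

lemma Q_monic (z : ℝ × ℝ) : (Q z).Monic := by
  have : Q z = X ^ (1 + 1) + (C z.1 * X + C z.2) := by unfold Q; ring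
  rw [this]
  exact monic_X_pow_add (lt_of_le_of_lt degree_linear_le (by norm_num))

lemma Q_natDegree (z : ℝ × ℝ) : (Q z).natDegree = 2 := by
  have h := natDegree_quadratic (a := (1 : ℝ)) (b := z.1) (c := z.2) one_ne_zero
  rwa [C_1, one_mul] at h

lemma quads (n : ℕ) : ∀ q : ℝ[X], q.Monic → (∀ x, q.eval x ≠ 0) → q.natDegree ≤ n →
    ∃ L : List (ℝ × ℝ), (∀ z ∈ L, z.1 ^ 2 < 4 * z.2) ∧ q = (L.map Q).prod ∧
      2 * L.length = q.natDegree := by
  induction n with
  | zero =>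
    intro q hq hr hd
    refine ⟨[], by simp, ?_, by simp; omega⟩
    simp only [List.map_nil, List.prod_nil]
    exact hq.natDegree_eq_zero.1 (by omega)
  | succ n ih =>
    intro q hq hr hd
    rcases Nat.eq_zero_or_pos q.natDegree with h0 | hpos
    · exact ih q hq hr (by omega)
    · obtain ⟨b, c, hbc, r, hrm, hrr, hqe, hdeg⟩ := quad_factor q hq hr hpos
      obtain ⟨L, hL, hLp, hLl⟩ := ih r hrm hrr (by omega)
      refine ⟨(b, c) :: L, ?_, ?_, ?_⟩
      · intro z hz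
        rcases List.mem_cons.1 hz with rfl | hz
        · exact hbc
        · exact hL z hz
      · rw [List.map_cons, List.prod_cons, ← hLp, hqe]; rfl
      · simp only [List.length_cons]; omega

lemma not_bad5_of_roots (p r : ℝ[X]) (a a' : ℝ) (h : p = (X - C a) * (X - C a') * r) :
    ¬ Bad5 p := by
  rintro ⟨b, c, hbc, hp⟩
  have hpos : ∀ x : ℝ, x ^ 4 + b * x ^ 2 + c ≠ 0 := by
    intro x; nlinarith [sq_nonneg (2 * x ^ 2 + b)]
  have hz : ∀ x : ℝ, p.eval x = 0 → x = 0 := by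
    intro x hx
    rw [hp] at hx
    simp only [eval_mul, eval_add, eval_pow, eval_X, eval_C] at hx
    rcases mul_eq_zero.1 hx with h1 | h1
    · exact h1
    · exact absurd h1 (hpos x)
  have ha : a = 0 := hz a (by rw [h]; simp)
  have ha' : a' = 0 := hz a' (by rw [h]; simp)
  rw [ha, ha', C_0, sub_zero] at h
  have h2 : (X ^ 4 + C b * X ^ 2 + C c : ℝ[X]) = X * r := by
    apply mul_left_cancel₀ (X_ne_zero (R := ℝ))
    rw [← hp, h]; ring
  have h3 := congrArg (eval 0) h2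
  simp at h3
  subst h3
  nlinarith [sq_nonneg b]

lemma not_bad4_of_eval (p : ℝ[X]) (h : p.eval 0 ≠ 0) : ¬ Bad4 p := by
  rintro ⟨b, c, -, hp⟩
  apply h; rw [hp]; simp

lemma not_bad5_of_eval (p : ℝ[X]) (h : p.eval 0 ≠ 0) : ¬ Bad5 p := by
  rintro ⟨b, c, -, hp⟩
  apply h; rw [hp]; simp

lemma not_bad4_of_split (a b c d : ℝ) :
    ¬ Bad4 ((X - C a) * (X - C b) * (X - C c) * (X - C d)) := by
  rintro ⟨β, γ, hbc, hp⟩
  have hz : ∀ x : ℝ, ((X - C a) * (X - C b) * (X - C c) * (X - C d) : ℝ[X]).eval x = 0 →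
      x = 0 := by
    intro x hx
    rw [hp] at hx
    simp only [eval_mul, eval_add, eval_pow, eval_X, eval_C] at hx
    rcases mul_eq_zero.1 hx with h1 | h1
    · exact pow_eq_zero_iff (two_ne_zero) |>.1 h1
    · nlinarith [sq_nonneg (2 * x + β)]
  have ha : a = 0 := hz a (by simp)
  have hb : b = 0 := hz b (by simp)
  have hc : c = 0 := hz c (by simp)
  have hd : d = 0 := hz d (by simp)
  subst ha; subst hb; subst hc; subst hd
  have h1 := congrArg (eval 1) hp
  have h2 := congrArg (eval (-1)) hp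
  simp at h1 h2
  nlinarith [sq_nonneg β]

lemma Q_eval0 (z : ℝ × ℝ) (h : z.1 ^ 2 < 4 * z.2) : (Q z).eval 0 ≠ 0 := by
  simp [Q]
  intro h0; rw [h0] at h; nlinarith [sq_nonneg z.1]

/-- `X q q'` is missed only if `q' (x) = q (-x)` and `q` is not even. -/
lemma bad5_pair (y z : ℝ × ℝ) (hy : y.1 ^ 2 < 4 * y.2) (hz : z.1 ^ 2 < 4 * z.2)
    (h : Bad5 (X * (Q y * Q z))) : z.1 = - y.1 ∧ y.1 ≠ 0 := by
  obtain ⟨b, c, hbc, hp⟩ := h
  have h2 : (Q y * Q z : ℝ[X]) = X ^ 4 + C b * X ^ 2 + C c :=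
    mul_left_cancel₀ (X_ne_zero (R := ℝ)) hp
  have hev : ∀ x : ℝ, (x ^ 2 + y.1 * x + y.2) * (x ^ 2 + z.1 * x + z.2) =
      x ^ 4 + b * x ^ 2 + c := by
    intro x
    have := congrArg (eval x) h2
    simpa [Q] using this
  have e0 := hev 0
  have e1 := hev 1
  have e2 := hev (-1)
  have e3 := hev 2
  have e4 := hev (-2)
  have h1 : z.1 + y.1 = 0 := by linear_combination (1/12 : ℝ) * e3 - (1/12 : ℝ) * e4 - (1/6 : ℝ) * e1 + (1/6 : ℝ) * e2
  have hzy : z.1 = -y.1 := by linarith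
  refine ⟨hzy, ?_⟩
  intro hy0
  rw [hy0] at hzy
  have hz0 : z.1 = 0 := by simpa using hzy
  rw [hy0, hz0] at e0 e1
  have hb : b = y.2 + z.2 := by linear_combination e0 - e1
  have hc : c = y.2 * z.2 := by linear_combination (-1 : ℝ) * e0
  rw [hb, hc] at hbc
  nlinarith [sq_nonneg (y.2 - z.2)]

lemma len_succ {α : Type} {l : List α} {n : ℕ} (h : l.length = n + 1) :
    ∃ a l', l = a :: l' ∧ l'.length = n := by
  cases l with
  | nil => simp at h
  | cons a l' => exact ⟨a, l', rfl, by simpa using h⟩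

lemma nd5 (p q : ℝ[X]) (hp : p.Monic) (hq : q.Monic) (h : (p * q).natDegree = 9)
    (h4 : q.natDegree = 4) : p.natDegree = 5 := by
  rw [hp.natDegree_mul hq] at h; omega

lemma factor9 (p : ℝ[X]) (hp : p.Monic) (hd : p.natDegree = 9) :
    ∃ p1 p2 : ℝ[X], p = p1 * p2 ∧ p1.Monic ∧ p2.Monic ∧ p1.natDegree = 5 ∧
      p2.natDegree = 4 ∧ ¬ Bad5 p1 ∧ ¬ Bad4 p2 := by
  obtain ⟨q, hpq, hcard, hroots⟩ := exists_prod_multiset_X_sub_C_mul p
  have hmlin : (p.roots.map fun a => X - C a).prod.Monic :=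
    monic_multiset_prod_of_monic _ _ (fun a _ => monic_X_sub_C a)
  have hq : q.Monic := hmlin.of_mul_monic_left (by rw [hpq]; exact hp)
  have hqr : ∀ x, q.eval x ≠ 0 := by
    intro x hx
    have : x ∈ q.roots := (mem_roots hq.ne_zero).2 hx
    rw [hroots] at this
    simp at this
  obtain ⟨L, hL, hLp, hLl⟩ := quads q.natDegree q hq hqr le_rfl
  obtain ⟨l, hl⟩ := Quot.exists_rep p.roots
  have hl' : p.roots = (l : Multiset ℝ) := hl.symm
  rw [hl', hd, ← hLl] at hcard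
  rw [hl', hLp] at hpq
  simp only [Multiset.map_coe, Multiset.prod_coe, Multiset.coe_card] at hpq hcard
  have key : ∀ p1 p2 : ℝ[X], p = p1 * p2 → p1.Monic → p2.Monic → p2.natDegree = 4 →
      ¬ Bad5 p1 → ¬ Bad4 p2 → ∃ p1 p2 : ℝ[X], p = p1 * p2 ∧ p1.Monic ∧ p2.Monic ∧
      p1.natDegree = 5 ∧ p2.natDegree = 4 ∧ ¬ Bad5 p1 ∧ ¬ Bad4 p2 := by
    intro p1 p2 h1 h2 h3 h4 h5 h6
    exact ⟨p1, p2, h1, h2, h3, nd5 p1 p2 h2 h3 (by rw [← h1, hd]) h4, h4, h5, h6⟩
  have hlin4 : ∀ a b c d : ℝ, ((X - C a) * (X - C b) * (X - C c) * (X - C d) : ℝ[X]).Monic ∧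
      ((X - C a) * (X - C b) * (X - C c) * (X - C d) : ℝ[X]).natDegree = 4 := by
    intro a b c d
    have m1 := monic_X_sub_C a
    have m2 := m1.mul (monic_X_sub_C b)
    have m3 := m2.mul (monic_X_sub_C c)
    refine ⟨m3.mul (monic_X_sub_C d), ?_⟩
    rw [m3.natDegree_mul (monic_X_sub_C d), m2.natDegree_mul (monic_X_sub_C c),
      m1.natDegree_mul (monic_X_sub_C b)]
    simp
  have hqq : ∀ y z : ℝ × ℝ, (Q y * Q z).Monic ∧ (Q y * Q z).natDegree = 4 := by
    intro y z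
    refine ⟨(Q_monic y).mul (Q_monic z), ?_⟩
    rw [(Q_monic y).natDegree_mul (Q_monic z), Q_natDegree, Q_natDegree]
  have hqq4 : ∀ y ∈ L, ∀ z ∈ L, ¬ Bad4 (Q y * Q z) := by
    intro y hy z hz
    apply not_bad4_of_eval
    rw [eval_mul]
    exact mul_ne_zero (Q_eval0 y (hL y hy)) (Q_eval0 z (hL z hz))
  rcases L with _ | ⟨q1, _ | ⟨q2, _ | ⟨q3, _ | ⟨q4, _ | ⟨q5, L⟩⟩⟩⟩⟩
  · -- nine real roots
    simp only [List.length_nil, mul_zero, add_zero] at hcard
    obtain ⟨a, l1, rfl, k1⟩ := len_succ hcard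
    obtain ⟨b, l2, rfl, k2⟩ := len_succ k1
    obtain ⟨c, l3, rfl, k3⟩ := len_succ k2
    obtain ⟨d, l4, rfl, k4⟩ := len_succ k3
    obtain ⟨e, l5, rfl, k5⟩ := len_succ k4
    obtain ⟨f, l6, rfl, k6⟩ := len_succ k5
    obtain ⟨g, l7, rfl, k7⟩ := len_succ k6
    obtain ⟨h, l8, rfl, k8⟩ := len_succ k7
    obtain ⟨i, l9, rfl, k9⟩ := len_succ k8
    obtain rfl := List.length_eq_zero_iff.1 k9
    simp only [List.map_cons, List.map_nil, List.prod_cons, List.prod_nil, mul_one] at hpq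
    refine key ((X - C a) * (X - C b) * ((X - C c) * (X - C d) * (X - C e)))
      ((X - C f) * (X - C g) * (X - C h) * (X - C i)) (by rw [← hpq]; ring) ?_
      (hlin4 f g h i).1 (hlin4 f g h i).2 (not_bad5_of_roots _ _ a b rfl)
      (not_bad4_of_split f g h i)
    exact ((monic_X_sub_C a).mul (monic_X_sub_C b)).mul
      (((monic_X_sub_C c).mul (monic_X_sub_C d)).mul (monic_X_sub_C e))
  · -- seven real roots
    simp only [List.length_cons, List.length_nil, zero_add, mul_one] at hcard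
    obtain ⟨a, l1, rfl, k1⟩ := len_succ (n := 6) (by omega : l.length = 6 + 1)
    obtain ⟨b, l2, rfl, k2⟩ := len_succ k1
    obtain ⟨c, l3, rfl, k3⟩ := len_succ k2
    obtain ⟨d, l4, rfl, k4⟩ := len_succ k3
    obtain ⟨e, l5, rfl, k5⟩ := len_succ k4
    obtain ⟨f, l6, rfl, k6⟩ := len_succ k5
    obtain ⟨g, l7, rfl, k7⟩ := len_succ k6
    obtain rfl := List.length_eq_zero_iff.1 k7
    simp only [List.map_cons, List.map_nil, List.prod_cons, List.prod_nil, mul_one] at hpq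
    refine key ((X - C a) * (X - C b) * ((X - C c) * Q q1))
      ((X - C d) * (X - C e) * (X - C f) * (X - C g)) (by rw [← hpq]; ring) ?_
      (hlin4 d e f g).1 (hlin4 d e f g).2 (not_bad5_of_roots _ _ a b rfl)
      (not_bad4_of_split d e f g)
    exact ((monic_X_sub_C a).mul (monic_X_sub_C b)).mul
      ((monic_X_sub_C c).mul (Q_monic q1))
  · -- five real roots
    simp only [List.length_cons, List.length_nil, zero_add] at hcard
    obtain ⟨a, l1, rfl, k1⟩ := len_succ (n := 4) (by omega : l.length = 4 + 1)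
    obtain ⟨b, l2, rfl, k2⟩ := len_succ k1
    obtain ⟨c, l3, rfl, k3⟩ := len_succ k2
    obtain ⟨d, l4, rfl, k4⟩ := len_succ k3
    obtain ⟨e, l5, rfl, k5⟩ := len_succ k4
    obtain rfl := List.length_eq_zero_iff.1 k5
    simp only [List.map_cons, List.map_nil, List.prod_cons, List.prod_nil, mul_one] at hpq
    refine key ((X - C a) * (X - C b) * ((X - C c) * (X - C d) * (X - C e)))
      (Q q1 * Q q2) (by rw [← hpq]; ring) ?_
      (hqq q1 q2).1 (hqq q1 q2).2 (not_bad5_of_roots _ _ a b rfl)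
      (hqq4 q1 (by simp) q2 (by simp))
    exact ((monic_X_sub_C a).mul (monic_X_sub_C b)).mul
      (((monic_X_sub_C c).mul (monic_X_sub_C d)).mul (monic_X_sub_C e))
  · -- three real roots
    simp only [List.length_cons, List.length_nil, zero_add] at hcard
    obtain ⟨a, l1, rfl, k1⟩ := len_succ (n := 2) (by omega : l.length = 2 + 1)
    obtain ⟨b, l2, rfl, k2⟩ := len_succ k1
    obtain ⟨c, l3, rfl, k3⟩ := len_succ k2
    obtain rfl := List.length_eq_zero_iff.1 k3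
    simp only [List.map_cons, List.map_nil, List.prod_cons, List.prod_nil, mul_one] at hpq
    refine key ((X - C a) * (X - C b) * ((X - C c) * Q q1))
      (Q q2 * Q q3) (by rw [← hpq]; ring) ?_
      (hqq q2 q3).1 (hqq q2 q3).2 (not_bad5_of_roots _ _ a b rfl)
      (hqq4 q2 (by simp) q3 (by simp))
    exact ((monic_X_sub_C a).mul (monic_X_sub_C b)).mul
      ((monic_X_sub_C c).mul (Q_monic q1))
  · -- one real root
    simp only [List.length_cons, List.length_nil, zero_add] at hcard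
    obtain ⟨a, l1, rfl, k1⟩ := len_succ (n := 0) (by omega : l.length = 0 + 1)
    obtain rfl := List.length_eq_zero_iff.1 k1
    simp only [List.map_cons, List.map_nil, List.prod_cons, List.prod_nil, mul_one] at hpq
    have g1 := hL q1 (by simp)
    have g2 := hL q2 (by simp)
    have g3 := hL q3 (by simp)
    by_cases ha : a = 0
    · subst ha
      rw [C_0, sub_zero] at hpq
      by_cases h12 : Bad5 (X * (Q q1 * Q q2))
      · by_cases h13 : Bad5 (X * (Q q1 * Q q3))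
        · have h23 : ¬ Bad5 (X * (Q q2 * Q q3)) := by
            intro h23
            obtain ⟨k1, k2⟩ := bad5_pair q1 q2 g1 g2 h12
            obtain ⟨k3, -⟩ := bad5_pair q1 q3 g1 g3 h13
            obtain ⟨k4, -⟩ := bad5_pair q2 q3 g2 g3 h23
            rw [k3, k1] at k4
            apply k2; linarith
          exact key (X * (Q q2 * Q q3)) (Q q1 * Q q4) (by rw [← hpq]; ring)
            (monic_X.mul (hqq q2 q3).1) (hqq q1 q4).1 (hqq q1 q4).2 h23
            (hqq4 q1 (by simp) q4 (by simp))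
        · exact key (X * (Q q1 * Q q3)) (Q q2 * Q q4) (by rw [← hpq]; ring)
            (monic_X.mul (hqq q1 q3).1) (hqq q2 q4).1 (hqq q2 q4).2 h13
            (hqq4 q2 (by simp) q4 (by simp))
      · exact key (X * (Q q1 * Q q2)) (Q q3 * Q q4) (by rw [← hpq]; ring)
          (monic_X.mul (hqq q1 q2).1) (hqq q3 q4).1 (hqq q3 q4).2 h12
          (hqq4 q3 (by simp) q4 (by simp))
    · refine key ((X - C a) * (Q q1 * Q q2)) (Q q3 * Q q4) (by rw [← hpq]; ring)
        ((monic_X_sub_C a).mul (hqq q1 q2).1) (hqq q3 q4).1 (hqq q3 q4).2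
        (not_bad5_of_eval _ ?_) (hqq4 q3 (by simp) q4 (by simp))
      rw [eval_mul, eval_mul]
      refine mul_ne_zero (by simpa using ha) (mul_ne_zero (Q_eval0 q1 g1) (Q_eval0 q2 g2))
  · exfalso
    simp only [List.length_cons] at hcard
    omega


lemma Realizes.zero {ι : Type} {A : Matrix ι ι ℝ} {P : ι → ι → Bool} (h : Realizes A P) {i j : ι}
    (hp : P i j = false) : A i j = 0 := by
  by_contra hc
  have := (h i j).1 hc
  rw [hp] at this
  exact absurd this (by decide)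

lemma form5 (A : Matrix (Fin 5) (Fin 5) ℝ) (h : Realizes A P5) :
    A = !![0, A 0 1, A 0 2, 0, A 0 4; 0, A 1 1, A 1 2, A 1 3, 0; 0, A 2 1, 0, 0, A 2 4;
      0, A 3 1, 0, A 3 3, 0; A 4 0, 0, 0, 0, 0] := by
  ext i j
  fin_cases i <;> fin_cases j <;> first | rfl | exact h.zero rfl

lemma form4 (A : Matrix (Fin 4) (Fin 4) ℝ) (h : Realizes A P4) :
    A = !![A 0 0, A 0 1, A 0 2, 0; A 1 0, A 1 1, A 1 2, 0; 0, 0, 0, A 2 3;
      A 3 0, A 3 1, 0, 0] := by
  ext i j
  fin_cases i <;> fin_cases j <;> first | rfl | exact h.zero rfl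

lemma real5 (e1 e2 e3 e4 e5 : ℝ) (h : ¬ (e1 = 0 ∧ e3 = 0 ∧ e5 = 0 ∧ e2 ^ 2 < 4 * e4)) :
    ∃ A : Matrix (Fin 5) (Fin 5) ℝ, Realizes A P5 ∧
      A.charpoly = X ^ 5 - C e1 * X ^ 4 + C e2 * X ^ 3 - C e3 * X ^ 2 + C e4 * X - C e5 := by
  obtain ⟨α, β, u, v, w, t, y, hα, hβ, hu, hv, hw, ht, hy, c1, c2, c3, c4, c5⟩ :=
    sol5 e1 e2 e3 e4 e5 h
  refine ⟨!![0, y, t, 0, w; 0, α, 1, 1, 0; 0, u, 0, 0, 1; 0, v, 0, β, 0; 1, 0, 0, 0, 0], ?_, ?_⟩
  · intro i j
    fin_cases i <;> fin_cases j <;> simp [P5, hα, hβ, hu, hv, hw, ht, hy]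
  · rw [charpoly5]
    rw [show -(y * 1 * 1 * 1) * β + t * 1 * 1 * α * β - t * 1 * 1 * (1 * v)
        + 1 * u * (w * 1) * β = e5 by linear_combination c5,
      show -(y * 1 * 1 * 1) + t * 1 * 1 * (α + β) + 1 * u * (w * 1) + 1 * v * (w * 1)
        - w * 1 * α * β = e4 by linear_combination c4,
      show t * 1 * 1 - 1 * u * β - w * 1 * (α + β) = e3 by linear_combination c3,
      show α * β - 1 * u - 1 * v - w * 1 = e2 by linear_combination c2, c1]

lemma real4 (e1 e2 e3 e4 : ℝ) (h : ¬ (e3 = 0 ∧ e4 = 0 ∧ e1 ^ 2 < 4 * e2)) :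
    ∃ A : Matrix (Fin 4) (Fin 4) ℝ, Realizes A P4 ∧
      A.charpoly = X ^ 4 - C e1 * X ^ 3 + C e2 * X ^ 2 - C e3 * X + C e4 := by
  obtain ⟨α, β, u, f, d, e, hα, hβ, hu, hf, hd, he, c1, c2, c3, c4⟩ := sol4 e1 e2 e3 e4 h
  refine ⟨!![α, 1, 1, 0; u, β, f, 0; 0, 0, 0, 1; d, e, 0, 0], ?_, ?_⟩
  · intro i j
    fin_cases i <;> fin_cases j <;> simp [P4, hα, hβ, hu, hf, hd, he]
  · rw [charpoly4]
    rw [show 1 * 1 * d * β + f * 1 * e * α - 1 * f * 1 * d - u * 1 * 1 * e = e4 by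
        linear_combination c4,
      show 1 * 1 * d + f * 1 * e = e3 by linear_combination c3,
      show α * β - 1 * u = e2 by linear_combination c2, c1]

lemma monic5_form (p : ℝ[X]) (hp : p.Monic) (hd : p.natDegree = 5) :
    p = X ^ 5 - C (-p.coeff 4) * X ^ 4 + C (p.coeff 3) * X ^ 3 - C (-p.coeff 2) * X ^ 2
      + C (p.coeff 1) * X - C (-p.coeff 0) := by
  have h5 : p.coeff 5 = 1 := by rw [← hd]; exact hp
  conv_lhs => rw [p.as_sum_range_C_mul_X_pow, hd]
  simp only [Finset.sum_range_succ, Finset.sum_range_zero, h5, C_1, C_neg, pow_zero, pow_one]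
  ring

lemma monic4_form (p : ℝ[X]) (hp : p.Monic) (hd : p.natDegree = 4) :
    p = X ^ 4 - C (-p.coeff 3) * X ^ 3 + C (p.coeff 2) * X ^ 2 - C (-p.coeff 1) * X
      + C (p.coeff 0) := by
  have h4 : p.coeff 4 = 1 := by rw [← hd]; exact hp
  conv_lhs => rw [p.as_sum_range_C_mul_X_pow, hd]
  simp only [Finset.sum_range_succ, Finset.sum_range_zero, h4, C_1, C_neg, pow_zero, pow_one]
  ring

lemma exact5 (p : ℝ[X]) (hp : p.Monic) (hd : p.natDegree = 5) :
    (∃ A : Matrix (Fin 5) (Fin 5) ℝ, Realizes A P5 ∧ A.charpoly = p) ↔ ¬ Bad5 p := by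
  constructor
  · rintro ⟨A, hA, hc⟩ ⟨b, c, hbc, rfl⟩
    rw [form5 A hA, charpoly5] at hc
    have k1 := congrArg (fun q => coeff q 4) hc
    have k2 := congrArg (fun q => coeff q 3) hc
    have k3 := congrArg (fun q => coeff q 2) hc
    have k4 := congrArg (fun q => coeff q 1) hc
    have k5 := congrArg (fun q => coeff q 0) hc
    rw [show (X * (X ^ 4 + C b * X ^ 2 + C c) : ℝ[X]) = X ^ 5 + C b * X ^ 3 + C c * X by ring]
      at k1 k2 k3 k4 k5
    simp only [coeff_sub, coeff_add, coeff_C_mul, coeff_X_pow, coeff_X, coeff_C] at k1 k2 k3 k4 k5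
    norm_num at k1 k2 k3 k4 k5
    have h33 : A 3 3 ≠ 0 := (hA 3 3).2 rfl
    have := obs5 (A 1 1) (A 3 3) (A 1 2 * A 2 1) (A 1 3 * A 3 1) (A 0 4 * A 4 0)
      (A 0 2 * A 2 4 * A 4 0) (A 0 1 * A 1 2 * A 2 4 * A 4 0) b c h33
      (by linear_combination (-1 : ℝ) * k1) (by linear_combination k2)
      (by linear_combination (-1 : ℝ) * k3) (by linear_combination k4)
      (by linear_combination (-1 : ℝ) * k5)
    linarith
  · intro h
    have hf := monic5_form p hp hd
    obtain ⟨A, hA, hc⟩ := real5 (-p.coeff 4) (p.coeff 3) (-p.coeff 2) (p.coeff 1) (-p.coeff 0)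
      (by
        rintro ⟨h1, h3, h5, h6⟩
        apply h
        refine ⟨p.coeff 3, p.coeff 1, h6, ?_⟩
        rw [h1, h3, h5, C_0] at hf
        rw [hf]
        simp only [coeff_sub, coeff_add, coeff_C_mul, coeff_X_pow, coeff_X, coeff_C, coeff_zero,
          zero_mul]
        norm_num
        ring)
    exact ⟨A, hA, by rw [hc, ← hf]⟩

lemma exact4 (p : ℝ[X]) (hp : p.Monic) (hd : p.natDegree = 4) :
    (∃ A : Matrix (Fin 4) (Fin 4) ℝ, Realizes A P4 ∧ A.charpoly = p) ↔ ¬ Bad4 p := by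
  constructor
  · rintro ⟨A, hA, hc⟩ ⟨b, c, hbc, rfl⟩
    rw [form4 A hA, charpoly4] at hc
    have k1 := congrArg (fun q => coeff q 3) hc
    have k2 := congrArg (fun q => coeff q 2) hc
    have k3 := congrArg (fun q => coeff q 1) hc
    have k4 := congrArg (fun q => coeff q 0) hc
    rw [show (X ^ 2 * (X ^ 2 + C b * X + C c) : ℝ[X]) = X ^ 4 + C b * X ^ 3 + C c * X ^ 2 by ring]
      at k1 k2 k3 k4
    simp only [coeff_sub, coeff_add, coeff_C_mul, coeff_X_pow, coeff_X, coeff_C] at k1 k2 k3 k4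
    norm_num at k1 k2 k3 k4
    have h02 : A 0 2 ≠ 0 := (hA 0 2).2 rfl
    have h23 : A 2 3 ≠ 0 := (hA 2 3).2 rfl
    have h30 : A 3 0 ≠ 0 := (hA 3 0).2 rfl
    have := obs4 (A 0 0) (A 0 1) (A 0 2) (A 1 0) (A 1 1) (A 1 2) (A 2 3) (A 3 0) (A 3 1) (-b) c
      h02 h23 h30
      (by linear_combination (-1 : ℝ) * k1) (by linear_combination k2)
      (by linear_combination (-1 : ℝ) * k3) (by linear_combination k4)
    nlinarith
  · intro h
    have hf := monic4_form p hp hd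
    obtain ⟨A, hA, hc⟩ := real4 (-p.coeff 3) (p.coeff 2) (-p.coeff 1) (p.coeff 0)
      (by
        rintro ⟨h1, h3, h6⟩
        apply h
        refine ⟨p.coeff 3, p.coeff 2, by linarith [neg_sq (p.coeff 3)], ?_⟩
        rw [h1, h3, C_0] at hf
        conv_lhs => rw [hf]
        rw [C_neg]
        ring)
    exact ⟨A, hA, by rw [hc, ← hf]⟩

lemma sum_sap : SpectrallyArbitrary (directSum P5 P4) := by
  intro p hp hd
  have hd' : p.natDegree = 9 := by simpa using hd
  obtain ⟨p1, p2, rfl, m1, m2, n1, n2, b1, b2⟩ := factor9 p hp hd'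
  obtain ⟨A, hA, hAc⟩ := (exact5 p1 m1 n1).2 b1
  obtain ⟨B, hB, hBc⟩ := (exact4 p2 m2 n2).2 b2
  refine ⟨Matrix.fromBlocks A 0 0 B, ?_, ?_⟩
  · intro i j
    rcases i with i | i <;> rcases j with j | j
    · exact hA i j
    · simp [directSum]
    · simp [directSum]
    · exact hB i j
  · rw [Matrix.charpoly_fromBlocks_zero₁₂, hAc, hBc]

lemma not_sap5 : ¬ SpectrallyArbitrary P5 := by
  intro h
  have hm : (X * (X ^ 4 + C 0 * X ^ 2 + C 1) : ℝ[X]).Monic ∧
      (X * (X ^ 4 + C 0 * X ^ 2 + C 1) : ℝ[X]).natDegree = 5 := by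
    have he : (X * (X ^ 4 + C 0 * X ^ 2 + C 1) : ℝ[X]) = X ^ 5 + X := by
      rw [C_0, C_1]; ring
    rw [he]
    constructor
    · monicity!
    · compute_degree!
  exact ((exact5 _ hm.1 hm.2).1 (h _ hm.1 (by rw [hm.2]; rfl))) ⟨0, 1, by norm_num, rfl⟩

lemma not_sap4 : ¬ SpectrallyArbitrary P4 := by
  intro h
  have hm : (X ^ 2 * (X ^ 2 + C 0 * X + C 1) : ℝ[X]).Monic ∧
      (X ^ 2 * (X ^ 2 + C 0 * X + C 1) : ℝ[X]).natDegree = 4 := by
    have he : (X ^ 2 * (X ^ 2 + C 0 * X + C 1) : ℝ[X]) = X ^ 4 + X ^ 2 := by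
      rw [C_0, C_1]; ring
    rw [he]
    constructor
    · monicity!
    · compute_degree!
  exact ((exact4 _ hm.1 hm.2).1 (h _ hm.1 (by rw [hm.2]; rfl))) ⟨0, 1, by norm_num, rfl⟩

/-- The direct sum of the zero-nonzero patterns `P5` (order five) and `P4` (order four) is
spectrally arbitrary although neither summand is.  The monic quintics that are not characteristic
polynomials of realizations of `P5` are exactly `x (x^4 + b x^2 + c)` with `b^2 < 4 c`. -/
theorem result :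
    (SpectrallyArbitrary (directSum P5 P4) ∧ ¬ SpectrallyArbitrary P5 ∧
      ¬ SpectrallyArbitrary P4) ∧
    (∀ p : ℝ[X], p.Monic → p.natDegree = 5 →
      ((∃ A : Matrix (Fin 5) (Fin 5) ℝ, Realizes A P5 ∧ A.charpoly = p) ↔
        ¬ ∃ b c : ℝ, b ^ 2 < 4 * c ∧ p = X * (X ^ 4 + C b * X ^ 2 + C c))) :=
  ⟨⟨sum_sap, not_sap5, not_sap4⟩, fun p hp hd => exact5 p hp hd⟩

end Pool.Agent.Results.MP_1020fe_co.DirectSumArbitrary
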